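import Pool.Agent.R341.Uni7

set_option autoImplicit false

namespace Pool.Agent.Results.MP_6b9f1a_nt.TwoSided

open Pool.Agent.R341.Uni

/-- The level set of the smallest univoque base at the Komornik–Loreti constant (the smallest
univoque base of `1`) has a two-sided accumulation point. -/
theorem result : ∃ q : ℝ, IsLeast (Ux 1) q ∧ ∃ x : ℝ, ∀ ε : ℝ, 0 < ε →
    (Set.Ioo (x - ε) x ∩ Lv q).Nonempty ∧ (Set.Ioo x (x + ε) ∩ Lv q).Nonempty := by
  obtain ⟨Q, h1, h2, h3⟩ := exists_KL
  obtain ⟨x, _, hx⟩ := exists_two_sided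
    (level_uncountable tm_adm tm_unb (by linarith) (by linarith) h3)
  exact ⟨Q, KL_least (by linarith) (by linarith) h3, x, hx⟩

end Pool.Agent.Results.MP_6b9f1a_nt.TwoSided
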