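import Pool.Agent.R341.Uni6

set_option autoImplicit false

namespace Pool.Agent.Results.MP_6b9f1a_nt.Uncountable

open Pool.Agent.R341.Uni

/-- The level set of the smallest univoque base at the Komornik–Loreti constant (the smallest
univoque base of `1`) is uncountable. -/
theorem result : ∃ q : ℝ, IsLeast (Ux 1) q ∧ ¬ (Lv q).Countable := by
  obtain ⟨Q, h1, h2, h3⟩ := exists_KL
  exact ⟨Q, KL_least (by linarith) (by linarith) h3,
    level_uncountable tm_adm tm_unb (by linarith) (by linarith) h3⟩

end Pool.Agent.Results.MP_6b9f1a_nt.Uncountable
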